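import Pool.Agent.H.MP_2a0133_al.B

set_option autoImplicit false

namespace Pool.Agent.Results.MP_2a0133_al.No

open MvPolynomial

/-- The facet ideal of the complex whose facets are the `i`-dimensional faces of `Δ`. -/
noncomputable def facetIdeal (K : Type) [Field K] {σ : Type} (Δ : Set (Finset σ)) (i : ℕ) :
    Ideal (MvPolynomial σ K) :=
  Ideal.span {p | ∃ F ∈ Δ, F.card = i + 1 ∧ p = ∏ v ∈ F, X v}

/-- The minimal number of generators of `I^(m) / I ^ m`, with `I^(m)` the intersection of the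
`m`-th powers of the minimal primes of `I`. -/
noncomputable def sdefect {S : Type} [CommRing S] (I : Ideal S) (m : ℕ) : ℕ :=
  (Submodule.map (I ^ m).mkQ (⨅ P ∈ I.minimalPrimes, P ^ m)).spanFinrank

/-- The sequence `a 1, …, a p` is unimodal. -/
def Unimodal (a : ℕ → ℕ) (p : ℕ) : Prop :=
  ∃ j, 1 ≤ j ∧ j ≤ p ∧ (∀ i, 1 ≤ i → i < j → a i ≤ a (i + 1)) ∧
    ∀ i, j ≤ i → i < p → a (i + 1) ≤ a i

theorem result (K : Type) [Field K] : ∃ Δ : Set (Finset (Fin 7)), IsLowerSet Δ ∧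
    (∀ v, {v} ∈ Δ) ∧ IsGreatest (Finset.card '' Δ) (4 + 1) ∧
    ∃ M, ∀ m ≥ M, ¬ Unimodal (fun i => sdefect (facetIdeal K Δ i) m) (4 - 1) := by
  let Δ : Set (Finset (Fin 7)) := {F | F ⊆ {0, 1, 2, 3, 4} ∨ F.card ≤ 4 ∧ F ≠ {3, 4, 5, 6}}
  have e : ∀ i m, sdefect (facetIdeal K Δ i) m = (Submodule.map
      (Uni.FI K {F ∈ Δ | F.card = i + 1} ^ m).mkQ
      (PdFun.MI K (Uni.SY {F ∈ Δ | F.card = i + 1} m))).spanFinrank := fun i m => by
    rw [← Uni.symb, sdefect, show facetIdeal K Δ i = Uni.FI K {F ∈ Δ | F.card = i + 1} from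
      congrArg Ideal.span (Set.ext fun p => by simp [and_assoc])]
  refine ⟨Δ, ?_, fun v => Or.inr ⟨by simp, fun h => ?_⟩, ⟨⟨{0, 1, 2, 3, 4}, Or.inl le_rfl, rfl⟩, ?_⟩,
    400 * (5040 * (400 + 1) ^ 4 + 400 + 1), fun m hm => ?_⟩
  · rintro F G h (h1 | ⟨h1, h2⟩)
    · exact Or.inl (h.trans h1)
    · refine Or.inr ⟨(Finset.card_le_card h).trans h1, ?_⟩
      rintro rfl
      exact h2 (Finset.eq_of_subset_of_card_le h h1).symm
  · exact absurd (congrArg Finset.card h) (by rw [Finset.card_singleton]; decide)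
  · rintro _ ⟨F, h | h, rfl⟩
    · exact Finset.card_le_card h
    · exact h.1.trans (by decide)
  have small : ∀ c ≤ 3, ∀ F, F ∈ {F ∈ Δ | F.card = c} ↔ F.card = c := fun c hc F =>
    ⟨fun h => h.2, fun h => ⟨Or.inr ⟨by omega, fun h' => by
      rw [h'] at h
      exact absurd (h ▸ hc) (by decide)⟩, h⟩⟩
  have h1 := Uni.one (k := K) (small 2 (by decide)) m (by omega)
  have h2 := Uni.two (small 3 le_rfl) (Uni.FI K {F ∈ Δ | F.card = 3} ^ m) m
  have h3 := Uni.three (k := K) (A := {F ∈ Δ | F.card = 4}) (fun F => ⟨fun h => ⟨h.2, by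
    rintro rfl
    rcases h.1 with h | h
    · exact absurd h (by decide)
    · exact h.2 rfl⟩, fun h => ⟨Or.inr ⟨h.1.le, h.2⟩, h.1⟩⟩) m (by omega)
  have b1 := Uni.big (c := 40) (m := m) (by decide) (by omega)
  have b3 := Uni.big (c := 400) (m := m) (by decide) hm
  have a1 := (h2.trans_lt b1).trans_le h1
  have a3 := (h2.trans_lt b3).trans_le h3
  rw [← e 2, ← e 1] at a1
  rw [← e 2, ← e 3] at a3
  rintro ⟨j, j1, j2, u, d⟩
  by_cases h : j ≤ 2
  · exact a3.not_ge (d 2 h (by decide))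
  · exact a1.not_ge (u 1 le_rfl (by omega))

end Pool.Agent.Results.MP_2a0133_al.No
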